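import Pool.Agent.Helper98.EQ.Goals
import Mathlib

/-!
# Project EQ (MP_5b9a11_al), packet IMP: the elements `r(d)` of a monomial action
-/

set_option autoImplicit false

namespace Pool.Agent.Helper91.EQ.IMP

open MonoidAlgebra Pool.Agent.Helper98.EQ
open Pool.Agent.Helper47.EP (Dat Chr Hs Om ee ev kap dm pHB)

theorem t (hTEN : S_TEN) : S_IMP := by
  intro p _ T A _ _ D _ _ c hc R _ C S τ τ0 τadd τS Φ hΦ hΦe hsur hinj
  obtain ⟨h1, h2, -, -, h5, h6, h7⟩ := hTEN A (ZMod T.l) R
  obtain ⟨hee, hcen, -⟩ := pHB p T A R C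
  have hc1 : ∀ a, c 1 a = 0 := by
    intro a
    have h := hc 1 1 a
    rw [mul_one, inv_one, one_smul] at h
    exact left_eq_add.1 h
  have hP1 : tn (fun a => τ (c 1 a)) * pm R (MulAction.toPerm (1 : D)) =
      (1 : Matrix (A → ZMod T.l) (A → ZMod T.l) R) := by
    have e1 : (MulAction.toPerm (1 : D) : Equiv.Perm A) = 1 :=
      Equiv.ext fun a => one_smul D a
    have e2 : (fun a => τ (c 1 a)) = fun _ : A => (1 : Matrix (ZMod T.l) (ZMod T.l) R) :=
      funext fun a => by rw [hc1 a, τ0]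
    rw [e1, h6, mul_one, e2, h2]
  have hPm : ∀ d d' : D, (tn (fun a => τ (c d a)) * pm R (MulAction.toPerm d)) *
      (tn (fun a => τ (c d' a)) * pm R (MulAction.toPerm d')) =
      tn (fun a => τ (c (d * d') a)) * pm R (MulAction.toPerm (d * d')) := by
    intro d d'
    have e1 : (MulAction.toPerm (d * d') : Equiv.Perm A) =
        MulAction.toPerm d * MulAction.toPerm d' := Equiv.ext fun a => mul_smul d d' a
    have e2 : (fun a => τ (c (d * d') a)) = fun a => τ (c d a) *
        τ (c d' ((MulAction.toPerm d : Equiv.Perm A)⁻¹ a)) := by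
      funext a
      rw [hc, τadd]
      rfl
    rw [e1, h5, e2, ← h1 (fun a => τ (c d a))
      (fun a => τ (c d' ((MulAction.toPerm d : Equiv.Perm A)⁻¹ a))), mul_assoc, mul_assoc,
      ← mul_assoc (pm R (MulAction.toPerm d)), h7, mul_assoc]
  choose r hr1 hr2 using fun d : D =>
    hsur (tn (fun a => τ (c d a)) * pm R (MulAction.toPerm d))
  have key : ∀ x y : MonoidAlgebra R (Hs T A), ee C A * x = x → ee C A * y = y →
      Φ x = Φ y → x = y := by
    intro x y hx hy hxy
    refine sub_eq_zero.1 (hinj (x - y) ?_ ?_)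
    · rw [mul_sub, hx, hy]
    · rw [map_sub, hxy, sub_self]
  refine ⟨⟨r, hr1, ?_, ?_, ?_⟩, hr2⟩
  · exact key _ _ (hr1 1) hee (by rw [hr2, hP1, hΦe])
  · intro d d'
    refine key _ _ (hr1 _) ?_ ?_
    · rw [← mul_assoc, hr1]
    · rw [map_mul, hr2, hr2, hr2, hPm]
  · intro d g
    refine key _ _ ?_ ?_ ?_
    · rw [← mul_assoc, hcen, mul_assoc, hr1]
    · rw [← mul_assoc, hr1]
    · rw [map_mul, map_mul, hr2, hΦ, hΦ, SA.s_apply]
      have e2 : (fun a => S ((mono T c hc).m d g.v a) * τ (c d a)) = fun a => τ (c d a) *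
          S (g.v ((MulAction.toPerm d : Equiv.Perm A)⁻¹ a)) := by
        funext a
        rw [τS]
        rfl
      rw [smul_mul_assoc, mul_smul_comm, ← mul_assoc, h1, e2,
        ← h1 (fun a => τ (c d a)) (fun a => S (g.v ((MulAction.toPerm d : Equiv.Perm A)⁻¹ a))),
        mul_assoc, mul_assoc, h7 (MulAction.toPerm d) (fun a => S (g.v a))]

end Pool.Agent.Helper91.EQ.IMP
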