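import Pool.Agent.Helper70.EQ.Goals

/-! Project EQ (MP_20ee5e_ag), packet MD: the sets `D V A` are measurable and of finite volume. -/

set_option autoImplicit false

open MeasureTheory Set

namespace Pool.Agent.Helper91.EQ.MD

open Pool.Agent.Helper70.KN Pool.Agent.Helper70.EQ

variable {N : ℕ}

lemma up_empty (x : Fin N → ℝ) : up ∅ x = x := by
  funext k
  simp [up]

lemma zr_empty (x : Fin N → ℝ) : zr ∅ x = x := by
  funext k
  simp [zr]

lemma le_up (A : Finset (Fin N)) (x : Fin N → ℝ) : x ≤ up A x := by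
  intro k
  unfold up
  split_ifs
  · exact (Int.lt_floor_add_one (x k)).le
  · exact le_rfl

lemma measurable_up (A : Finset (Fin N)) : Measurable (up A) := by
  rw [measurable_pi_iff]
  intro k
  unfold up
  by_cases h : k ∈ A
  · simp only [h, if_true]
    have h1 : Measurable fun x : Fin N → ℝ => (⌊x k⌋ : ℤ) := (measurable_pi_apply k).floor
    have h2 : Measurable fun z : ℤ => ((z : ℝ) + 1) := measurable_from_top
    exact h2.comp h1
  · simp only [h, if_false]
    exact measurable_pi_apply k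

lemma D_empty (V : Finset (Fin N → ℕ)) : D V ∅ = cyl V ∅ := by
  ext x
  simp only [D, cyl, mem_ofPred_eq, up_empty, zr_empty]
  constructor
  · rintro ⟨h1, h2⟩
    exact ⟨h1, fun j hj => absurd hj (Finset.notMem_empty j), h2⟩
  · rintro ⟨h1, -, h2⟩
    exact ⟨h1, h2⟩

theorem t (hCL : S_CL) (hMF : S_MF) : G_MD := by
  intro N V hV A
  obtain ⟨h1, -, h3⟩ := hCL N V
  obtain ⟨-, h5, -⟩ := hMF N V hV ∅
  refine ⟨?_, ?_, ?_⟩
  · have h6 : MeasurableSet {x : Fin N → ℝ | 0 ≤ x} := measurableSet_Ici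
    exact h6.inter (measurable_up A h1.measurableSet.compl)
  · have h7 : D V A ⊆ cyl V ∅ := by
      rw [← D_empty]
      rintro x ⟨h8, h9⟩
      refine ⟨h8, fun h10 => h9 ?_⟩
      rw [up_empty] at h10
      exact h3 (le_up A x) h10
    exact ((measure_mono h7).trans_lt (lt_top_iff_ne_top.mpr h5)).ne
  · rw [dv, W, D_empty]

end Pool.Agent.Helper91.EQ.MD
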